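import Mathlib

/-! Sets with many multipliers: quantitative Erdős–Turán. -/

set_option autoImplicit false

namespace Q17.ET

open Filter Finset

open Classical in
/-- The number of ordered `h`-tuples of elements of `A` with sum `n`. -/
noncomputable def reps (A : Set ℕ) (h n : ℕ) : ℕ :=
  ((Finset.Nat.antidiagonalTuple h n).filter (fun v => ∀ i, v i ∈ A)).card

/-- The multipliers of `A`. -/
def mult (A : Set ℕ) : Set ℕ := {m | ∀ a ∈ A, m * a ∈ A}

/-- `n` is a sum of `h` elements of `A`. -/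
def IsSum (A : Set ℕ) (h n : ℕ) : Prop := ∃ v : Fin h → ℕ, (∀ i, v i ∈ A) ∧ ∑ i, v i = n

lemma mult_one (A : Set ℕ) : 1 ∈ mult A := fun a ha => by rwa [one_mul]

lemma mult_mul {A : Set ℕ} {m n : ℕ} (hm : m ∈ mult A) (hn : n ∈ mult A) : m * n ∈ mult A :=
  fun a ha => by rw [mul_assoc]; exact hm _ (hn a ha)

lemma mult_prod {A : Set ℕ} {ι : Type*} (s : Finset ι) (f : ι → ℕ) (hf : ∀ i ∈ s, f i ∈ mult A) :
    ∏ i ∈ s, f i ∈ mult A := by
  classical
  induction s using Finset.induction_on with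
  | empty => rw [Finset.prod_empty]; exact mult_one A
  | insert i s hi ih =>
    rw [Finset.prod_insert hi]
    exact mult_mul (hf i (Finset.mem_insert_self _ _))
      (ih fun j hj => hf j (Finset.mem_insert_of_mem hj))

/-- A representation whose first element is at most half of the sum. -/
lemma exists_small {k : ℕ} {A : Set ℕ} {m : ℕ} (h : IsSum A (k + 2) m) :
    ∃ v : Fin (k + 2) → ℕ, (∀ i, v i ∈ A) ∧ ∑ i, v i = m ∧ 2 * v 0 ≤ m := by
  obtain ⟨v, hv, hs⟩ := h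
  obtain ⟨i, -, hi⟩ := Finset.exists_min_image Finset.univ v ⟨0, Finset.mem_univ _⟩
  refine ⟨fun j => v (Equiv.swap 0 i j), fun j => hv _, ?_, ?_⟩
  · rw [← hs]
    exact Equiv.sum_comp (Equiv.swap 0 i) v
  · change 2 * v (Equiv.swap 0 i 0) ≤ m
    rw [Equiv.swap_apply_left, ← hs]
    have h1 : ∑ _j : Fin (k + 2), v i ≤ ∑ j, v j :=
      Finset.sum_le_sum fun j _ => hi j (Finset.mem_univ j)
    rw [Finset.sum_const, Finset.card_univ, Fintype.card_fin, smul_eq_mul] at h1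
    nlinarith [Nat.zero_le (k * v i)]

section weight

/-- Sums over numbers which are products. -/
lemma sum_le (U : Finset ℕ) (S : Finset ℝ) (hS : ∀ s ∈ S, (2 : ℝ) ≤ s) (n1 J : ℕ) {σ : ℝ}
    (hσ : 0 < σ)
    (hU : ∀ m ∈ U, ∃ m0 : ℕ, m0 < n1 ∧ ∃ e : {x // x ∈ S} → ℕ, (∀ s, e s < J) ∧
      (m : ℝ) = m0 * ∏ s : {x // x ∈ S}, (s : ℝ) ^ e s) :
    ∑ m ∈ U, (m : ℝ) ^ (-σ) ≤ n1 * ((1 - (2 : ℝ) ^ (-σ))⁻¹) ^ S.card := by
  classical
  choose! b hb e he hm using hU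
  let w : ℕ × ({x // x ∈ S} → ℕ) → ℝ := fun y =>
    (y.1 : ℝ) ^ (-σ) * ∏ s : {x // x ∈ S}, ((s : ℝ) ^ (-σ)) ^ y.2 s
  have hs0 : ∀ s : {x // x ∈ S}, (0 : ℝ) < s := fun s => by linarith [hS s s.2]
  have hw : ∀ m ∈ U, (m : ℝ) ^ (-σ) = w (b m, e m) := by
    intro m hmU
    conv_lhs => rw [hm m hmU]
    rw [Real.mul_rpow (Nat.cast_nonneg _) (Finset.prod_nonneg fun s _ =>
      (pow_pos (hs0 s) _).le), ← Real.finsetProd_rpow _ _ fun s _ => (pow_pos (hs0 s) _).le]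
    change _ = _ * _
    congr 1
    refine Finset.prod_congr rfl fun s _ => ?_
    rw [← Real.rpow_natCast, ← Real.rpow_natCast, ← Real.rpow_mul (hs0 s).le,
      ← Real.rpow_mul (hs0 s).le, mul_comm]
  have hw0 : ∀ y, 0 ≤ w y := by
    intro y
    refine mul_nonneg (Real.rpow_nonneg (Nat.cast_nonneg _) _) (Finset.prod_nonneg fun s _ => ?_)
    exact pow_nonneg (Real.rpow_nonneg (hs0 s).le _) _
  let T : Finset (ℕ × ({x // x ∈ S} → ℕ)) :=
    (range n1) ×ˢ (Fintype.piFinset fun _ => range J)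
  have hinj : Set.InjOn (fun m => (b m, e m)) (U : Set ℕ) := by
    intro m hm1 m' hm2 heq
    have h1 := hm m hm1
    have h2 := hm m' hm2
    obtain ⟨h3, h4⟩ := Prod.mk.inj heq
    rw [h3, h4, ← h2] at h1
    exact_mod_cast h1
  have h1 : ∑ m ∈ U, (m : ℝ) ^ (-σ) = ∑ y ∈ U.image (fun m => (b m, e m)), w y := by
    rw [Finset.sum_image hinj]
    exact Finset.sum_congr rfl hw
  have h2 : ∑ y ∈ U.image (fun m => (b m, e m)), w y ≤ ∑ y ∈ T, w y := by
    refine Finset.sum_le_sum_of_subset_of_nonneg ?_ fun y _ _ => hw0 y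
    intro y hy
    obtain ⟨m, hmU, rfl⟩ := Finset.mem_image.1 hy
    refine Finset.mem_product.2 ⟨Finset.mem_range.2 (hb m hmU), ?_⟩
    rw [Fintype.mem_piFinset]
    exact fun s => Finset.mem_range.2 (he m hmU s)
  have h3 : ∑ y ∈ T, w y = (∑ i ∈ range n1, (i : ℝ) ^ (-σ)) *
      ∏ s : {x // x ∈ S}, ∑ j ∈ range J, ((s : ℝ) ^ (-σ)) ^ j := by
    rw [Finset.sum_product, Finset.prod_univ_sum, Finset.sum_mul]
    refine Finset.sum_congr rfl fun i _ => ?_
    rw [Finset.mul_sum]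
  have hlt : (2 : ℝ) ^ (-σ) < 1 := Real.rpow_lt_one_of_one_lt_of_neg (by norm_num) (by linarith)
  have h2pos : 0 < (2 : ℝ) ^ (-σ) := Real.rpow_pos_of_pos (by norm_num) _
  have h4 : ∀ s : {x // x ∈ S}, ∑ j ∈ range J, ((s : ℝ) ^ (-σ)) ^ j ≤
      (1 - (2 : ℝ) ^ (-σ))⁻¹ := by
    intro s
    have h5 : (s : ℝ) ^ (-σ) ≤ (2 : ℝ) ^ (-σ) :=
      Real.rpow_le_rpow_of_nonpos (by norm_num) (hS s s.2) (by linarith)
    have h6 : 0 ≤ (s : ℝ) ^ (-σ) := Real.rpow_nonneg (hs0 s).le _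
    calc ∑ j ∈ range J, ((s : ℝ) ^ (-σ)) ^ j ≤ ∑ j ∈ range J, ((2 : ℝ) ^ (-σ)) ^ j :=
          Finset.sum_le_sum fun j _ => pow_le_pow_left₀ h6 h5 j
      _ ≤ (1 - (2 : ℝ) ^ (-σ))⁻¹ := by
          rw [← tsum_geometric_of_lt_one h2pos.le hlt]
          exact (summable_geometric_of_lt_one h2pos.le hlt).sum_le_tsum _
            fun j _ => pow_nonneg h2pos.le j
  have h5 : ∏ s : {x // x ∈ S}, ∑ j ∈ range J, ((s : ℝ) ^ (-σ)) ^ j ≤
      ((1 - (2 : ℝ) ^ (-σ))⁻¹) ^ S.card := by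
    have h6 := Finset.prod_le_prod (s := (Finset.univ : Finset {x // x ∈ S}))
      (f := fun s : {x // x ∈ S} => ∑ j ∈ range J, ((s : ℝ) ^ (-σ)) ^ j)
      (g := fun _ => (1 - (2 : ℝ) ^ (-σ))⁻¹)
      (fun (s : {x // x ∈ S}) _ =>
        Finset.sum_nonneg fun j _ => pow_nonneg (Real.rpow_nonneg (hs0 s).le _) _)
      (fun (s : {x // x ∈ S}) _ => h4 s)
    rw [Finset.prod_const, Finset.card_univ, Fintype.card_coe] at h6
    exact h6
  have h6 : ∑ i ∈ range n1, (i : ℝ) ^ (-σ) ≤ n1 := by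
    have h7 : ∑ i ∈ range n1, (i : ℝ) ^ (-σ) ≤ ∑ _i ∈ range n1, (1 : ℝ) := by
      refine Finset.sum_le_sum fun i _ => ?_
      rcases Nat.eq_zero_or_pos i with h | h
      · rw [h, Nat.cast_zero, Real.zero_rpow (by linarith)]
        norm_num
      · exact Real.rpow_le_one_of_one_le_of_nonpos (by exact_mod_cast h) (by linarith)
    rwa [Finset.sum_const, Finset.card_range, nsmul_eq_mul, mul_one] at h7
  rw [h1]
  refine h2.trans ?_
  rw [h3]
  exact mul_le_mul h6 h5 (Finset.prod_nonneg fun s _ =>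
    Finset.sum_nonneg fun j _ => pow_nonneg (Real.rpow_nonneg (hs0 s).le _) _) (Nat.cast_nonneg _)

end weight

section main

variable {k : ℕ} {A : Set ℕ} (h0 : 0 ∉ A) {n1 : ℕ} (hn1 : 2 ≤ n1)
  (v : ℕ → Fin (k + 2) → ℕ)
  (hv : ∀ m ∈ mult A, n1 ≤ m → (∀ i, v m i ∈ A) ∧ ∑ i, v m i = m ∧ 2 * v m 0 ≤ m)

open Classical in
/-- The multipliers up to `X`. -/
noncomputable def MX (A : Set ℕ) (X : ℕ) : Finset ℕ := (Finset.Icc 1 X).filter (· ∈ mult A)

open Classical in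
/-- The ratios up to `X`. -/
noncomputable def QX (A : Set ℕ) (n1 : ℕ) (v : ℕ → Fin (k + 2) → ℕ) (X : ℕ) : Finset ℝ :=
  ((MX A X).filter (n1 ≤ ·)).image fun m => (v m 0 : ℝ) / m

include h0 hv in
/-- Many ratios give many representations. -/
lemma reps_ge (X : ℕ) : ∃ P : ℕ, (QX A n1 v X).card ≤ reps A (k + 2) P ∧
    (n1 : ℝ) ^ (QX A n1 v X).card ≤ P ∧ (P : ℝ) ≤ (X : ℝ) ^ (QX A n1 v X).card := by
  classical
  have h1 : ∀ q ∈ QX A n1 v X, ∃ m : ℕ, m ∈ mult A ∧ n1 ≤ m ∧ 1 ≤ m ∧ m ≤ X ∧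
      (v m 0 : ℝ) / m = q := by
    intro q hq
    obtain ⟨m, hm, hmq⟩ := Finset.mem_image.1 hq
    obtain ⟨h2, h3⟩ := Finset.mem_filter.1 hm
    obtain ⟨h4, h5⟩ := Finset.mem_filter.1 h2
    obtain ⟨h6, h7⟩ := Finset.mem_Icc.1 h4
    exact ⟨m, h5, h3, h6, h7, hmq⟩
  choose! μ hμ using h1
  let P := ∏ q ∈ QX A n1 v X, μ q
  have hdiv : ∀ q ∈ QX A n1 v X, P = (∏ q' ∈ (QX A n1 v X).erase q, μ q') * μ q := by
    intro q hq
    rw [mul_comm]
    exact (Finset.mul_prod_erase _ _ hq).symm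
  have hPpos : 0 < P := Finset.prod_pos fun q hq => (hμ q hq).2.2.1
  refine ⟨P, ?_, ?_, ?_⟩
  · unfold reps
    refine Finset.card_le_card_of_injOn
      (fun q => fun i => (∏ q' ∈ (QX A n1 v X).erase q, μ q') * v (μ q) i) ?_ ?_
    · intro q hq
      obtain ⟨g1, g2, g3, g4, g5⟩ := hμ q hq
      obtain ⟨g6, g7, g8⟩ := hv _ g1 g2
      rw [Finset.mem_coe, Finset.mem_filter, Finset.Nat.mem_antidiagonalTuple]
      refine ⟨?_, fun i => ?_⟩
      · rw [← Finset.mul_sum, g7, ← hdiv q hq]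
      · refine mult_prod _ _ (fun q' hq' => (hμ q' (Finset.mem_of_mem_erase hq')).1) _ (g6 i)
    · intro q hq q' hq' heq
      obtain ⟨g1, g2, g3, g4, g5⟩ := hμ q hq
      obtain ⟨g1', g2', g3', g4', g5'⟩ := hμ q' hq'
      have h2 := congrFun heq 0
      dsimp only at h2
      have h3 : ∀ q ∈ QX A n1 v X,
          (((∏ q' ∈ (QX A n1 v X).erase q, μ q') * v (μ q) 0 : ℕ) : ℝ) = q * P := by
        intro q hq
        obtain ⟨g1, g2, g3, g4, g5⟩ := hμ q hq
        have h4 : (μ q : ℝ) ≠ 0 := by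
          have : (0 : ℝ) < μ q := by exact_mod_cast g3
          exact this.ne'
        have h5 : (P : ℝ) = ((∏ q' ∈ (QX A n1 v X).erase q, μ q' : ℕ) : ℝ) * μ q := by
          exact_mod_cast hdiv q hq
        have h6 : (v (μ q) 0 : ℝ) = q * μ q := (div_eq_iff h4).1 g5
        rw [h5, Nat.cast_mul, h6]
        ring
      have h4 : (q : ℝ) * P = q' * P := by
        rw [← h3 q hq, ← h3 q' hq']
        exact_mod_cast h2
      have h5 : (P : ℝ) ≠ 0 := by exact_mod_cast hPpos.ne'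
      exact mul_right_cancel₀ h5 h4
  · have h2 := Finset.prod_le_prod (s := QX A n1 v X) (f := fun _ => (n1 : ℝ))
      (g := fun q => (μ q : ℝ)) (fun q _ => Nat.cast_nonneg _)
      (fun q hq => by exact_mod_cast (hμ q hq).2.1)
    rw [Finset.prod_const] at h2
    refine h2.trans (le_of_eq ?_)
    exact (Nat.cast_prod _ _).symm
  · have h2 := Finset.prod_le_prod (s := QX A n1 v X) (f := fun q => (μ q : ℝ))
      (g := fun _ => (X : ℝ)) (fun q _ => Nat.cast_nonneg _)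
      (fun q hq => by exact_mod_cast (hμ q hq).2.2.2.1)
    rw [Finset.prod_const] at h2
    refine le_trans (le_of_eq ?_) h2
    exact Nat.cast_prod _ _

variable (C : Finset ℕ) (hC : ∀ a ∈ A, ∃ c ∈ C, ∃ m ∈ mult A, a = c * m)

include h0 hn1 hv hC in
/-- The multipliers are products of few ratios. -/
lemma many_ratios (hne : A.Nonempty) (X : ℕ) {σ : ℝ} (hσ : 0 < σ) :
    ∑ m ∈ MX A X, (m : ℝ) ^ (-σ) ≤
      n1 * ((1 - (2 : ℝ) ^ (-σ))⁻¹) ^ (C.card * (QX A n1 v X).card) := by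
  classical
  have hpos : ∀ m ∈ mult A, 1 ≤ m := by
    intro m hm
    obtain ⟨a, ha⟩ := hne
    rcases Nat.eq_zero_or_pos m with h | h
    · exfalso
      apply h0
      have := hm a ha
      rwa [h, zero_mul] at this
    · exact h
  choose! c hc d hd hcd using hC
  have hcpos : ∀ a ∈ A, 1 ≤ c a := by
    intro a ha
    rcases Nat.eq_zero_or_pos (c a) with h | h
    · exfalso
      apply h0
      have := hcd a ha
      rw [h, zero_mul] at this
      rwa [this] at ha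
    · exact h
  -- the quotients
  let ρ : ℕ → ℝ := fun m => (m : ℝ) / d (v m 0)
  let S : Finset ℝ := ((MX A X).filter (n1 ≤ ·)).image ρ
  have hmem : ∀ m ∈ mult A, n1 ≤ m → v m 0 ∈ A ∧ 2 * d (v m 0) ≤ m ∧ 1 ≤ d (v m 0) ∧
      d (v m 0) ∈ mult A := by
    intro m hm hmn
    obtain ⟨g1, g2, g3⟩ := hv m hm hmn
    have h1 := hcd _ (g1 0)
    have h2 := hcpos _ (g1 0)
    have h3 := hd _ (g1 0)
    refine ⟨g1 0, ?_, hpos _ h3, h3⟩
    have h4 : d (v m 0) ≤ v m 0 := by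
      conv_rhs => rw [h1]
      exact Nat.le_mul_of_pos_left _ h2
    omega
  have hS : ∀ s ∈ S, (2 : ℝ) ≤ s := by
    intro s hs
    obtain ⟨m, hm, rfl⟩ := Finset.mem_image.1 hs
    obtain ⟨h2, h3⟩ := Finset.mem_filter.1 hm
    obtain ⟨h4, h5⟩ := Finset.mem_filter.1 h2
    obtain ⟨h6, h7, h8, h9⟩ := hmem m h5 h3
    change 2 ≤ (m : ℝ) / d (v m 0)
    rw [le_div_iff₀ (by exact_mod_cast h8)]
    exact_mod_cast h7
  have hcard : S.card ≤ C.card * (QX A n1 v X).card := by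
    have h1 : S ⊆ (C ×ˢ QX A n1 v X).image fun y => (y.1 : ℝ) / y.2 := by
      intro s hs
      obtain ⟨m, hm, rfl⟩ := Finset.mem_image.1 hs
      obtain ⟨h2, h3⟩ := Finset.mem_filter.1 hm
      obtain ⟨h4, h5⟩ := Finset.mem_filter.1 h2
      obtain ⟨h6, h7, h8, h9⟩ := hmem m h5 h3
      refine Finset.mem_image.2 ⟨(c (v m 0), (v m 0 : ℝ) / m), Finset.mem_product.2
        ⟨hc _ h6, Finset.mem_image.2 ⟨m, hm, rfl⟩⟩, ?_⟩
      change (c (v m 0) : ℝ) / ((v m 0 : ℝ) / m) = (m : ℝ) / d (v m 0)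
      have h10 : (v m 0 : ℝ) = c (v m 0) * d (v m 0) := by exact_mod_cast hcd _ h6
      have h11 : (c (v m 0) : ℝ) ≠ 0 := by
        have := hcpos _ h6
        have h12 : (0 : ℝ) < c (v m 0) := by exact_mod_cast this
        exact h12.ne'
      have h12 : (d (v m 0) : ℝ) ≠ 0 := by
        have h13 : (0 : ℝ) < d (v m 0) := by exact_mod_cast h8
        exact h13.ne'
      have h13 : (m : ℝ) ≠ 0 := by
        have h14 : (0 : ℝ) < m := by exact_mod_cast hpos m h5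
        exact h14.ne'
      have h15 : (c (v m 0) : ℝ) / ((v m 0 : ℝ) / m) =
          (c (v m 0) : ℝ) / ((c (v m 0) * d (v m 0) : ℝ) / m) := by
        congr 2
      rw [h15]
      field_simp
    exact (Finset.card_le_card h1).trans (Finset.card_image_le.trans
      (Finset.card_product _ _).le)
  have hB : (1 : ℝ) ≤ (1 - (2 : ℝ) ^ (-σ))⁻¹ := by
    have hlt : (2 : ℝ) ^ (-σ) < 1 := Real.rpow_lt_one_of_one_lt_of_neg (by norm_num) (by linarith)
    have h2pos : 0 < (2 : ℝ) ^ (-σ) := Real.rpow_pos_of_pos (by norm_num) _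
    exact (one_le_inv₀ (by linarith)).2 (by linarith)
  refine (sum_le (MX A X) S hS n1 (X + 1) hσ ?_).trans
    (mul_le_mul_of_nonneg_left (pow_le_pow_right₀ hB hcard) (Nat.cast_nonneg _))
  -- the representation
  have key : ∀ m, m ≤ X → m ∈ mult A → ∃ m0 : ℕ, m0 < n1 ∧ ∃ e : {x // x ∈ S} → ℕ,
      (∀ s, e s < m + 1) ∧ (m : ℝ) = m0 * ∏ s : {x // x ∈ S}, (s : ℝ) ^ e s := by
    intro m
    induction m using Nat.strong_induction_on with
    | _ m ih =>
      intro hmX hmA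
      rcases lt_or_ge m n1 with hmn | hmn
      · refine ⟨m, hmn, fun _ => 0, fun _ => Nat.succ_pos _, ?_⟩
        simp
      · obtain ⟨h6, h7, h8, h9⟩ := hmem m hmA hmn
        have hlt : d (v m 0) < m := by omega
        obtain ⟨m0, hm0, e, he, heq⟩ := ih _ hlt (by omega) h9
        have hρS : ρ m ∈ S := Finset.mem_image.2 ⟨m, Finset.mem_filter.2
          ⟨Finset.mem_filter.2 ⟨Finset.mem_Icc.2 ⟨hpos m hmA, hmX⟩, hmA⟩, hmn⟩, rfl⟩
        refine ⟨m0, hm0, fun s => e s + if s = ⟨ρ m, hρS⟩ then 1 else 0, fun s => ?_, ?_⟩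
        · have := he s
          dsimp only
          split_ifs <;> omega
        · have h10 : (m : ℝ) = ρ m * d (v m 0) := by
            change (m : ℝ) = (m : ℝ) / d (v m 0) * d (v m 0)
            have h12 : (d (v m 0) : ℝ) ≠ 0 := by
              have h13 : (0 : ℝ) < d (v m 0) := by exact_mod_cast h8
              exact h13.ne'
            field_simp
          have h11 : ∏ s : {x // x ∈ S}, (s : ℝ) ^ (e s + if s = ⟨ρ m, hρS⟩ then 1 else 0) =
              (∏ s : {x // x ∈ S}, (s : ℝ) ^ e s) * ρ m := by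
            simp_rw [pow_add]
            rw [Finset.prod_mul_distrib]
            congr 1
            rw [Finset.prod_eq_single (⟨ρ m, hρS⟩ : {x // x ∈ S})]
            · rw [if_pos rfl, pow_one]
            · intro s _ hs
              rw [if_neg hs, pow_zero]
            · intro h
              exact absurd (Finset.mem_univ _) h
          rw [h11, h10, heq]
          ring
  intro m hm
  obtain ⟨h4, h5⟩ := Finset.mem_filter.1 hm
  obtain ⟨h6, h7⟩ := Finset.mem_Icc.1 h4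
  obtain ⟨m0, hm0, e, he, heq⟩ := key m h7 h5
  exact ⟨m0, hm0, e, fun s => lt_of_lt_of_le (he s) (by omega), heq⟩

open Classical in
include hC in
lemma card_A_le (hne : A.Nonempty) (X : ℕ) (h0 : 0 ∉ A) :
    ((Finset.Icc 1 X).filter (· ∈ A)).card ≤ C.card * (MX A X).card := by
  choose! c hc d hd hcd using hC
  rw [← Finset.card_product]
  refine le_trans (Finset.card_le_card (t := (C ×ˢ MX A X).image fun y => y.1 * y.2) ?_)
    Finset.card_image_le
  intro a ha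
  obtain ⟨h1, h2⟩ := Finset.mem_filter.1 ha
  obtain ⟨h3, h4⟩ := Finset.mem_Icc.1 h1
  have h5 := hcd a h2
  have h6 : 0 < c a * d a := by omega
  refine Finset.mem_image.2 ⟨(c a, d a), Finset.mem_product.2 ⟨hc a h2, Finset.mem_filter.2
    ⟨Finset.mem_Icc.2 ⟨Nat.pos_of_mul_pos_left h6, ?_⟩, hd a h2⟩⟩, h5.symm⟩
  have h7 : d a ≤ c a * d a := Nat.le_mul_of_pos_left _ (Nat.pos_of_mul_pos_right h6)
  omega

open Classical in
include h0 hn1 hv hC in
/-- Many ratios at a thick scale. -/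
lemma ratios_ge (hne : A.Nonempty) {δ : ℝ} (hδ : 0 < δ) :
    ∃ κ : ℝ, 0 < κ ∧ ∃ X0 : ℕ, ∀ X : ℕ, X0 ≤ X →
      (X : ℝ) ^ δ ≤ ((Finset.Icc 1 X).filter (· ∈ A)).card →
      κ * Real.log X ≤ (QX A n1 v X).card := by
  set σ : ℝ := δ / 2 with hσdef
  have hσ : 0 < σ := by positivity
  set B : ℝ := (1 - (2 : ℝ) ^ (-σ))⁻¹ with hBdef
  have hlt : (2 : ℝ) ^ (-σ) < 1 := Real.rpow_lt_one_of_one_lt_of_neg (by norm_num) (by linarith)
  have h2pos : 0 < (2 : ℝ) ^ (-σ) := Real.rpow_pos_of_pos (by norm_num) _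
  have hB : 1 < B := (one_lt_inv₀ (by linarith)).2 (by linarith)
  have hlB : 0 < Real.log B := Real.log_pos hB
  obtain ⟨a0, ha0⟩ := id hne
  have hCpos : 0 < C.card := by
    obtain ⟨c, hc, -⟩ := hC a0 ha0
    exact Finset.card_pos.2 ⟨c, hc⟩
  have hCr : (0 : ℝ) < C.card := by exact_mod_cast hCpos
  have hn1r : (0 : ℝ) < n1 := by exact_mod_cast (by omega : 0 < n1)
  set K : ℝ := Real.log (C.card * n1) with hK
  refine ⟨σ / (2 * C.card * Real.log B), by positivity, ?_⟩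
  obtain ⟨X0, hX0⟩ := (Filter.eventually_atTop.1 ((Real.tendsto_log_atTop.comp
    tendsto_natCast_atTop_atTop).eventually_ge_atTop (2 * K / σ)))
  refine ⟨max X0 1, fun X hX hth => ?_⟩
  have hX1 : 1 ≤ X := le_trans (le_max_right _ _) hX
  have hXr : (0 : ℝ) < X := by exact_mod_cast hX1
  have hlog : 2 * K / σ ≤ Real.log X := hX0 X (le_trans (le_max_left _ _) hX)
  have h1 := many_ratios h0 hn1 v hv C hC hne X hσ
  have h2 : ((MX A X).card : ℝ) * (X : ℝ) ^ (-σ) ≤ ∑ m ∈ MX A X, (m : ℝ) ^ (-σ) := by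
    rw [← nsmul_eq_mul, ← Finset.sum_const]
    refine Finset.sum_le_sum fun m hm => ?_
    obtain ⟨h3, h4⟩ := Finset.mem_Icc.1 (Finset.mem_filter.1 hm).1
    exact Real.rpow_le_rpow_of_nonpos (by exact_mod_cast h3) (by exact_mod_cast h4)
      (by linarith)
  have h3 : (X : ℝ) ^ δ ≤ C.card * (MX A X).card := by
    refine hth.trans ?_
    exact_mod_cast card_A_le C hC hne X h0
  have h4 : (X : ℝ) ^ σ ≤ C.card * n1 * B ^ (C.card * (QX A n1 v X).card) := by
    have h5 : (X : ℝ) ^ σ = (X : ℝ) ^ δ * (X : ℝ) ^ (-σ) := by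
      rw [← Real.rpow_add hXr]
      congr 1
      rw [hσdef]; ring
    rw [h5]
    calc (X : ℝ) ^ δ * (X : ℝ) ^ (-σ) ≤ (C.card * (MX A X).card) * (X : ℝ) ^ (-σ) :=
          mul_le_mul_of_nonneg_right h3 (Real.rpow_nonneg hXr.le _)
      _ = C.card * ((MX A X).card * (X : ℝ) ^ (-σ)) := by ring
      _ ≤ C.card * (n1 * B ^ (C.card * (QX A n1 v X).card)) :=
          mul_le_mul_of_nonneg_left (h2.trans h1) hCr.le
      _ = _ := by ring
  have h5 := Real.log_le_log (Real.rpow_pos_of_pos hXr _) h4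
  rw [Real.log_rpow hXr, Real.log_mul (by positivity) (by positivity), Real.log_pow] at h5
  have h6 : K ≤ σ / 2 * Real.log X := by
    rw [div_le_iff₀ hσ] at hlog
    linarith
  have h7 : σ / 2 * Real.log X ≤ ((C.card * (QX A n1 v X).card : ℕ) : ℝ) * Real.log B := by
    have : K = Real.log (C.card * n1) := rfl
    linarith
  push_cast at h7
  rw [div_mul_eq_mul_div, div_le_iff₀ (by positivity)]
  nlinarith

end main

/-- Quantitative Erdős–Turán for sets with many multipliers. -/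
theorem main {h : ℕ} (hh : 2 ≤ h) {A : Set ℕ} (h0 : 0 ∉ A) (hne : A.Nonempty) (n0 : ℕ)
    (C : Finset ℕ) (hC : ∀ a ∈ A, ∃ c ∈ C, ∃ m ∈ mult A, a = c * m)
    (hsum : ∀ m ∈ mult A, n0 ≤ m → IsSum A h m) {δ : ℝ} (hδ : 0 < δ)
    (hth : ∃ᶠ X : ℕ in atTop, (X : ℝ) ^ δ ≤ ((A ∩ Set.Icc 1 X).ncard : ℝ)) :
    ∃ c : ℝ, 0 < c ∧ ∃ᶠ n : ℕ in atTop, c * Real.sqrt (Real.log n) ≤ reps A h n := by
  classical
  obtain ⟨k, rfl⟩ : ∃ k, h = k + 2 := ⟨h - 2, by omega⟩
  have h1 : ∀ m ∈ mult A, n0 + 2 ≤ m → ∃ v : Fin (k + 2) → ℕ,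
      (∀ i, v i ∈ A) ∧ ∑ i, v i = m ∧ 2 * v 0 ≤ m := fun m hm hmn =>
    exists_small (hsum m hm (by omega))
  choose! v hv using h1
  obtain ⟨κ, hκ, X0, hX0⟩ := ratios_ge h0 (by omega : 2 ≤ n0 + 2) v hv C hC hne hδ
  refine ⟨Real.sqrt κ, Real.sqrt_pos.2 hκ, ?_⟩
  rw [Filter.frequently_atTop]
  intro N
  -- a large scale
  have hlarge : ∀ᶠ X : ℕ in atTop, (N : ℝ) ≤ κ * Real.log X := by
    have := (Real.tendsto_log_atTop.comp tendsto_natCast_atTop_atTop).eventually_ge_atTop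
      ((N : ℝ) / κ)
    filter_upwards [this] with X hX
    rw [div_le_iff₀ hκ] at hX
    change (N : ℝ) ≤ κ * Real.log X
    rw [mul_comm]
    exact hX
  obtain ⟨X, ⟨hX1, hX2⟩, hX3, hX4⟩ := ((hth.and_eventually hlarge).and_eventually
    ((Filter.eventually_ge_atTop X0).and (Filter.eventually_ge_atTop 1))).exists
  have hset : (A ∩ Set.Icc 1 X).ncard = ((Finset.Icc 1 X).filter (· ∈ A)).card := by
    rw [← Set.ncard_coe_finset]
    congr 1
    ext a
    simp only [Set.mem_inter_iff, Set.mem_Icc, Finset.coe_filter, Finset.mem_Icc,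
      Set.mem_setOf_eq]
    tauto
  rw [hset] at hX1
  have hR := hX0 X hX3 hX1
  set R := (QX A (n0 + 2) v X).card with hRdef
  obtain ⟨P, hP1, hP2, hP3⟩ := reps_ge h0 v hv X
  have hNR : (N : ℝ) ≤ R := hX2.trans hR
  have hXr : (0 : ℝ) < X := by exact_mod_cast hX4
  refine ⟨P, ?_, ?_⟩
  · have h2 : (R : ℝ) ≤ P := by
      refine le_trans ?_ hP2
      have h3 : R < 2 ^ R := Nat.lt_two_pow_self
      have h4 : 2 ^ R ≤ (n0 + 2) ^ R := Nat.pow_le_pow_left (by omega) R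
      exact_mod_cast (h3.le.trans h4)
    exact_mod_cast hNR.trans h2
  · refine le_trans ?_ (show (R : ℝ) ≤ _ by exact_mod_cast hP1)
    have hPpos : (0 : ℝ) < P := lt_of_lt_of_le (by positivity) hP2
    have h2 : Real.log P ≤ R * Real.log X := by
      have := Real.log_le_log hPpos hP3
      rwa [Real.log_pow] at this
    have h3 : κ * Real.log P ≤ (R : ℝ) ^ 2 := by
      calc κ * Real.log P ≤ κ * (R * Real.log X) := mul_le_mul_of_nonneg_left h2 hκ.le
        _ = R * (κ * Real.log X) := by ring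
        _ ≤ R * R := mul_le_mul_of_nonneg_left hR (Nat.cast_nonneg _)
        _ = (R : ℝ) ^ 2 := by ring
    rw [← Real.sqrt_mul hκ.le]
    rw [Real.sqrt_le_left (Nat.cast_nonneg _)]
    exact h3

/-- Bases are thick. -/
lemma thick_of_basis {h : ℕ} (hh : 2 ≤ h) {A : Set ℕ} (h0 : 0 ∉ A) {n0 : ℕ}
    (hb : ∀ n, n0 ≤ n → IsSum A h n) :
    ∀ᶠ X : ℕ in atTop, (X : ℝ) ^ (1 / (2 * h : ℝ)) ≤ ((A ∩ Set.Icc 1 X).ncard : ℝ) := by
  classical
  have hset : ∀ X : ℕ, (A ∩ Set.Icc 1 X).ncard = ((Finset.Icc 1 X).filter (· ∈ A)).card := by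
    intro X
    rw [← Set.ncard_coe_finset]
    congr 1
    ext a
    simp only [Set.mem_inter_iff, Set.mem_Icc, Finset.coe_filter, Finset.mem_Icc,
      Set.mem_setOf_eq]
    tauto
  have hcount : ∀ X : ℕ, X + 1 - n0 ≤ ((Finset.Icc 1 X).filter (· ∈ A)).card ^ h := by
    intro X
    let T := (Finset.Icc 1 X).filter (· ∈ A)
    have h1 : Finset.Icc n0 X ⊆ (Fintype.piFinset fun _ : Fin h => T).image
        fun v => ∑ i, v i := by
      intro n hn
      obtain ⟨h2, h3⟩ := Finset.mem_Icc.1 hn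
      obtain ⟨v, hv, hs⟩ := hb n h2
      refine Finset.mem_image.2 ⟨v, ?_, hs⟩
      rw [Fintype.mem_piFinset]
      intro i
      refine Finset.mem_filter.2 ⟨Finset.mem_Icc.2 ⟨?_, ?_⟩, hv i⟩
      · rcases Nat.eq_zero_or_pos (v i) with h | h
        · exact absurd (h ▸ hv i) h0
        · exact h
      · have := Finset.single_le_sum (f := v) (fun _ _ => Nat.zero_le _) (Finset.mem_univ i)
        omega
    have h2 := (Finset.card_le_card h1).trans Finset.card_image_le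
    rwa [Nat.card_Icc, Fintype.card_piFinset, Finset.prod_const, Finset.card_univ,
      Fintype.card_fin] at h2
  have h1 : ∀ᶠ X : ℕ in atTop, (X : ℝ) ^ (1 / 2 : ℝ) ≤ (X : ℝ) + 1 - n0 := by
    filter_upwards [Filter.eventually_ge_atTop (4 * n0 + 4)] with X hX
    have hXr : (4 * n0 + 4 : ℝ) ≤ X := by exact_mod_cast hX
    rw [← Real.sqrt_eq_rpow]
    have hn0 : (0 : ℝ) ≤ n0 := Nat.cast_nonneg _
    rw [Real.sqrt_le_left (by linarith)]
    nlinarith
  filter_upwards [h1, Filter.eventually_ge_atTop (n0 + 1)] with X hX hX2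
  rw [hset]
  set c := ((Finset.Icc 1 X).filter (· ∈ A)).card
  have h2 : (X : ℝ) + 1 - n0 ≤ (c : ℝ) ^ h := by
    have h3 : X + 1 - n0 ≤ c ^ h := hcount X
    have h4 : X + 1 ≤ c ^ h + n0 := by omega
    have h5 : (X : ℝ) + 1 ≤ (c : ℝ) ^ h + n0 := by exact_mod_cast h4
    linarith
  have h3 : (X : ℝ) ^ (1 / 2 : ℝ) ≤ (c : ℝ) ^ h := hX.trans h2
  have hh' : (0 : ℝ) < h := by exact_mod_cast (by omega : 0 < h)
  have h4 := Real.rpow_le_rpow (Real.rpow_nonneg (Nat.cast_nonneg _) _) h3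
    (by positivity : (0 : ℝ) ≤ 1 / h)
  rw [← Real.rpow_mul (Nat.cast_nonneg _), ← Real.rpow_natCast, ← Real.rpow_mul
    (Nat.cast_nonneg _)] at h4
  have h5 : (1 / 2 : ℝ) * (1 / h) = 1 / (2 * h) := by
    field_simp
  have h6 : (h : ℝ) * (1 / h) = 1 := by field_simp
  rwa [h5, h6, Real.rpow_one] at h4

end Q17.ET
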